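import Mathlib

/-!
# The twist graph of the colorful triangulations of a convex polygon

The vertices of the convex `N`-gon are numbered `0, ..., N - 1` (the vertex `i` is the vertex `i + 1`
of the problem). A triangulation is a maximal set of pairwise non-crossing diagonals.
-/

set_option autoImplicit false

namespace Pool.Agent.E8helper91.Twist

/-! ### Definitions -/

/-- The pair `(i, j)`, `i < j`, is a side of the polygon. -/
def IsSide {N : ℕ} (p : Fin N × Fin N) : Prop :=
  p.1.val + 1 = p.2.val ∨ (p.1.val = 0 ∧ p.2.val + 1 = N)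

/-- The pair `(i, j)` is a diagonal of the polygon (written with `i < j`). -/
def IsDiagonal {N : ℕ} (p : Fin N × Fin N) : Prop := p.1 < p.2 ∧ ¬ IsSide p

/-- The diagonals `p` and `q` cross. -/
def Cross {N : ℕ} (p q : Fin N × Fin N) : Prop :=
  (p.1 < q.1 ∧ q.1 < p.2 ∧ p.2 < q.2) ∨ (q.1 < p.1 ∧ p.1 < q.2 ∧ q.2 < p.2)

/-- A triangulation of the polygon: a maximal set of pairwise non-crossing diagonals. -/
structure IsTriangulation {N : ℕ} (T : Finset (Fin N × Fin N)) : Prop where
  diagonal : ∀ p ∈ T, IsDiagonal p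
  noncrossing : ∀ p ∈ T, ∀ q ∈ T, ¬ Cross p q
  maximal : ∀ p, IsDiagonal p → (∀ q ∈ T, ¬ Cross p q) → p ∈ T

/-- `i < j` and `(i, j)` is a side of the polygon or a diagonal of `T`. -/
def IsEdge {N : ℕ} (T : Finset (Fin N × Fin N)) (i j : Fin N) : Prop :=
  i < j ∧ (IsSide (i, j) ∨ (i, j) ∈ T)

/-- The three vertices `i < j < k` form a triangle of `T`. -/
def IsTriangle {N : ℕ} (T : Finset (Fin N × Fin N)) (i j k : Fin N) : Prop :=
  IsEdge T i j ∧ IsEdge T j k ∧ IsEdge T i k

/-- The color of the vertex `i`: going around the polygon the colors are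
red, blue, green, red, blue, green, ... -/
def color {N : ℕ} (i : Fin N) : ℕ := i.val % 3

/-- Every triangle of `T` has one vertex of each of the three colors. -/
def Colorful {N : ℕ} (T : Finset (Fin N × Fin N)) : Prop :=
  ∀ i j k, IsTriangle T i j k → color i ≠ color j ∧ color j ≠ color k ∧ color i ≠ color k

/-- `T'` is obtained from `T` by a twist: there is a hexagon `h 0 < h 1 < ... < h 5` whose sides are
sides of the polygon or diagonals of `T`, such that one of the two triangles `h 0, h 2, h 4` and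
`h 1, h 3, h 5` has all its sides among the diagonals of `T`; these three diagonals are
replaced by the three sides of the other triangle. -/
def IsTwist {N : ℕ} (T T' : Finset (Fin N × Fin N)) : Prop :=
  ∃ h : Fin 6 → Fin N, StrictMono h ∧
    (IsEdge T (h 0) (h 1) ∧ IsEdge T (h 1) (h 2) ∧ IsEdge T (h 2) (h 3) ∧ IsEdge T (h 3) (h 4) ∧
      IsEdge T (h 4) (h 5) ∧ IsEdge T (h 0) (h 5)) ∧
    ((({(h 0, h 2), (h 2, h 4), (h 0, h 4)} : Finset (Fin N × Fin N)) ⊆ T ∧
        T' = (T \ {(h 0, h 2), (h 2, h 4), (h 0, h 4)}) ∪ {(h 1, h 3), (h 3, h 5), (h 1, h 5)}) ∨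
      (({(h 1, h 3), (h 3, h 5), (h 1, h 5)} : Finset (Fin N × Fin N)) ⊆ T ∧
        T' = (T \ {(h 1, h 3), (h 3, h 5), (h 1, h 5)}) ∪ {(h 0, h 2), (h 2, h 4), (h 0, h 4)}))

/-- The graph `H_N`: its vertices are the colorful triangulations of the convex `N`-gon, and two of
them are adjacent when one is obtained from the other by a twist. -/
def twistGraph (N : ℕ) :
    SimpleGraph {T : Finset (Fin N × Fin N) // IsTriangulation T ∧ Colorful T} :=
  SimpleGraph.fromRel fun T T' => IsTwist T.1 T'.1

end Pool.Agent.E8helper91.Twist
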