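import Pool.Agent.E8helper91.Twist.Defs

/-!
# The twist graph of the colorful triangulations of the convex 14-gon is connected
-/

set_option autoImplicit false

namespace Pool.Agent.E8helper91.Twist

/-! ### Splitting a triangulation -/

theorem split {N : ℕ} {T : Finset (Fin N × Fin N)} (hT : IsTriangulation T) {i j : Fin N}
    (hij : i.val + 2 ≤ j.val) (he : (i, j) ∈ T ∨ (i.val = 0 ∧ j.val + 1 = N)) :
    ∃ k, i < k ∧ k < j ∧ IsEdge T i k ∧ IsEdge T k j := by
  classical
  let S : Finset (Fin N) := Finset.univ.filter fun k => i < k ∧ k < j ∧ IsEdge T i k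
  have hS : S.Nonempty := by
    refine ⟨⟨i.val + 1, by omega⟩, ?_⟩
    simp only [S, Finset.mem_filter, Finset.mem_univ, true_and]
    refine ⟨?_, ?_, ?_, Or.inl (Or.inl rfl)⟩
    · rw [Fin.lt_def]; simp
    · rw [Fin.lt_def]; simp; omega
    · rw [Fin.lt_def]; simp
  obtain ⟨k, hkS, hmax⟩ := S.exists_max_image id hS
  simp only [S, Finset.mem_filter, Finset.mem_univ, true_and, id] at hkS hmax
  obtain ⟨hik, hkj, hedge⟩ := hkS
  refine ⟨k, hik, hkj, hedge, hkj, ?_⟩
  by_cases hs : IsSide (k, j)
  · exact Or.inl hs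
  right
  apply hT.maximal _ ⟨hkj, hs⟩
  rintro ⟨a, b⟩ hab hc
  have hd := (hT.diagonal _ hab).1
  have hnij : ¬ Cross (i, j) (a, b) := by
    rcases he with he | he
    · exact hT.noncrossing _ he _ hab
    · rintro (⟨h1, h2, h3⟩ | ⟨h1, h2, h3⟩) <;> simp only [Fin.lt_def] at * <;> omega
  have hnik : ¬ Cross (i, k) (a, b) := by
    rcases hedge.2 with h | h
    · rintro (⟨h1, h2, h3⟩ | ⟨h1, h2, h3⟩) <;> rcases h with h | h <;>
        simp only [Fin.lt_def] at * <;> omega
    · exact hT.noncrossing _ h _ hab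
  have h3 : ∀ l, i < l → l < j → IsEdge T i l → l ≤ k := fun l h1 h2 h3 => hmax l ⟨h1, h2, h3⟩
  simp only [Cross, Fin.lt_def] at hc hnij hnik hd hik hkj
  by_cases hai : a = i
  · subst hai
    have h4 := h3 b (by rw [Fin.lt_def]; omega) (by rw [Fin.lt_def]; omega)
      ⟨by rw [Fin.lt_def]; omega, Or.inr hab⟩
    rw [Fin.le_def] at h4
    omega
  · have : a.val ≠ i.val := fun h => hai (Fin.ext h)
    omega

/-! ### Bit masks -/

/-- The mask of the diagonal `(i, j)`. -/
def bit (i j : ℕ) : ℕ := 2 ^ (14 * i + j)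

/-- The masks of the colorful triangulations of the polygon with the vertices `i, ..., i + d`. -/
def E : ℕ → ℕ → ℕ → List ℕ
  | 0, _, _ => []
  | f + 1, i, d =>
    if d ≤ 1 then [0] else
    (List.range (d - 1)).flatMap fun t =>
      if (i % 3 == (i + t + 1) % 3) || ((i + t + 1) % 3 == (i + d) % 3) || (i % 3 == (i + d) % 3)
      then [] else
        (E f i (t + 1)).flatMap fun a => (E f (i + t + 1) (d - t - 1)).map fun b =>
          (a ||| b ||| (if t = 0 then 0 else bit i (i + t + 1)) |||
            (if d = t + 2 then 0 else bit (i + t + 1) (i + d)))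

theorem testBit_bit {i j a b : ℕ} (hj : j < 14) (hb : b < 14) :
    (bit i j).testBit (14 * a + b) = decide (i = a ∧ j = b) := by
  unfold bit
  rw [Nat.testBit_two_pow]
  congr 1
  apply propext
  omega

/-- `m` is the mask of the set of the diagonals in `T` of the polygon `i, ..., i + d`. -/
def Rep (T : Finset (Fin 14 × Fin 14)) (i d m : ℕ) : Prop :=
  ∀ a b : Fin 14, m.testBit (14 * a.val + b.val) = true ↔
    (i ≤ a.val ∧ b.val ≤ i + d ∧ ¬ (a.val = i ∧ b.val = i + d) ∧ (a, b) ∈ T)

theorem enum {T : Finset (Fin 14 × Fin 14)} (hT : IsTriangulation T) (hc : Colorful T) :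
    ∀ f i d : ℕ, d < f → 1 ≤ d → ∀ hi : i + d < 14,
      (IsEdge T ⟨i, by omega⟩ ⟨i + d, hi⟩) → ∃ m ∈ E f i d, Rep T i d m := by
  intro f
  induction f with
  | zero => intro i d h; omega
  | succ f ih =>
    intro i d hdf hd hi he
    by_cases hd1 : d ≤ 1
    · refine ⟨0, ?_, ?_⟩
      · simp [E, hd1]
      · intro a b
        simp only [Nat.zero_testBit, Bool.false_eq_true, false_iff, not_and]
        intro h1 h2 h3 h4
        have h5 := (hT.diagonal _ h4)
        simp only [IsDiagonal, IsSide, Fin.lt_def] at h5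
        omega
    · have he' : ((⟨i, by omega⟩ : Fin 14), (⟨i + d, hi⟩ : Fin 14)) ∈ T ∨
          ((⟨i, by omega⟩ : Fin 14).val = 0 ∧ (⟨i + d, hi⟩ : Fin 14).val + 1 = 14) := by
        rcases he.2 with h | h
        · right
          simp only [IsSide] at h
          constructor <;> simp only <;> omega
        · exact Or.inl h
      obtain ⟨k, hik, hkj, e1, e2⟩ := split hT (i := ⟨i, by omega⟩) (j := ⟨i + d, hi⟩)
        (by simp only; omega) he'
      simp only [Fin.lt_def] at hik hkj
      obtain ⟨t, ht⟩ : ∃ t, k.val = i + t + 1 := ⟨k.val - i - 1, by omega⟩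
      have hk : k = ⟨i + (t + 1), by omega⟩ := Fin.ext (by simp only; omega)
      have hk' : k = ⟨i + t + 1, by omega⟩ := Fin.ext (by simp only; omega)
      have hj : (⟨i + d, hi⟩ : Fin 14) = ⟨i + t + 1 + (d - t - 1), by omega⟩ :=
        Fin.ext (by simp only; omega)
      obtain ⟨m1, hm1, r1⟩ := ih i (t + 1) (by omega) (by omega) (by omega) (by rw [← hk]; exact e1)
      obtain ⟨m2, hm2, r2⟩ := ih (i + t + 1) (d - t - 1) (by omega) (by omega) (by omega)
        (by rw [← hk', ← hj]; exact e2)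
      have hcol := hc _ _ _ ⟨e1, e2, he⟩
      simp only [color, ht] at hcol
      refine ⟨m1 ||| m2 ||| (if t = 0 then 0 else bit i (i + t + 1)) |||
            (if d = t + 2 then 0 else bit (i + t + 1) (i + d)), ?_, ?_⟩
      · rw [E, if_neg hd1, List.mem_flatMap]
        refine ⟨t, List.mem_range.2 (by omega), ?_⟩
        rw [if_neg]
        · rw [List.mem_flatMap]
          exact ⟨m1, hm1, List.mem_map.2 ⟨m2, hm2, rfl⟩⟩
        · simp only [Bool.or_eq_true, beq_iff_eq]
          tauto
      · intro a b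
        have ha := a.isLt
        have hb := b.isLt
        rw [Nat.testBit_or, Nat.testBit_or, Nat.testBit_or, Bool.or_eq_true, Bool.or_eq_true,
          Bool.or_eq_true, r1 a b, r2 a b]
        have b1 : (if t = 0 then 0 else bit i (i + t + 1)).testBit (14 * a.val + b.val) = true ↔
            (t ≠ 0 ∧ a.val = i ∧ b.val = i + t + 1) := by
          split_ifs with h
          · simp [h]
          · rw [testBit_bit (by omega) hb, decide_eq_true_iff]
            constructor
            · rintro ⟨h1, h2⟩; exact ⟨h, h1.symm, h2.symm⟩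
            · rintro ⟨_, h1, h2⟩; exact ⟨h1.symm, h2.symm⟩
        have b2 : (if d = t + 2 then 0 else bit (i + t + 1) (i + d)).testBit
            (14 * a.val + b.val) = true ↔
            (d ≠ t + 2 ∧ a.val = i + t + 1 ∧ b.val = i + d) := by
          split_ifs with h
          · simp [h]
          · rw [testBit_bit (by omega) hb, decide_eq_true_iff]
            constructor
            · rintro ⟨h1, h2⟩; exact ⟨h, h1.symm, h2.symm⟩
            · rintro ⟨_, h1, h2⟩; exact ⟨h1.symm, h2.symm⟩
        rw [b1, b2]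
        constructor
        · rintro (((⟨h1, h2, h3, h4⟩ | ⟨h1, h2, h3, h4⟩) | ⟨h1, h2, h3⟩) | ⟨h1, h2, h3⟩)
          · have := (hT.diagonal _ h4).1
            rw [Fin.lt_def] at this
            refine ⟨h1, by omega, by omega, h4⟩
          · have := (hT.diagonal _ h4).1
            rw [Fin.lt_def] at this
            refine ⟨by omega, by omega, by omega, h4⟩
          · refine ⟨by omega, by omega, by omega, ?_⟩
            have ea : a = ⟨i, by omega⟩ := Fin.ext h2
            have eb : b = k := Fin.ext (by omega)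
            rw [ea, eb]
            rcases e1.2 with h | h
            · exfalso
              simp only [IsSide] at h
              omega
            · exact h
          · refine ⟨by omega, by omega, by omega, ?_⟩
            have ea : a = k := Fin.ext (by omega)
            have eb : b = ⟨i + d, hi⟩ := Fin.ext h3
            rw [ea, eb]
            rcases e2.2 with h | h
            · exfalso
              simp only [IsSide] at h
              omega
            · exact h
        · rintro ⟨h1, h2, h3, h4⟩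
          have hab := (hT.diagonal _ h4)
          simp only [IsDiagonal, IsSide, Fin.lt_def] at hab
          have n1 : ¬ (i < a.val ∧ a.val < i + t + 1 ∧ i + t + 1 < b.val) := by
            rintro ⟨q1, q2, q3⟩
            rcases e1.2 with h | h
            · simp only [IsSide] at h
              omega
            · refine hT.noncrossing _ h _ h4 (Or.inl ?_)
              simp only [Fin.lt_def]
              omega
          have n2 : ¬ (a.val < i + t + 1 ∧ i + t + 1 < b.val ∧ b.val < i + d) := by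
            rintro ⟨q1, q2, q3⟩
            rcases e2.2 with h | h
            · simp only [IsSide] at h
              omega
            · refine hT.noncrossing _ h _ h4 (Or.inr ?_)
              simp only [Fin.lt_def]
              omega
          by_cases c1 : b.val ≤ i + t + 1
          · by_cases c2 : a.val = i ∧ b.val = i + t + 1
            · left; right
              omega
            · left; left; left
              exact ⟨h1, by omega, by omega, h4⟩
          · by_cases c2 : a.val = i + t + 1 ∧ b.val = i + d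
            · right
              omega
            · left; left; right
              exact ⟨by omega, by omega, by omega, h4⟩

/-! ### Checking the masks -/

/-- The set of the diagonals in the mask `m`. -/
def ofMask (m : ℕ) : Finset (Fin 14 × Fin 14) :=
  Finset.univ.filter fun p => m.testBit (14 * p.1.val + p.2.val) = true

theorem mem_ofMask {m : ℕ} {a b : Fin 14} :
    (a, b) ∈ ofMask m ↔ m.testBit (14 * a.val + b.val) = true := by
  simp [ofMask]

def crossB (i j a b : ℕ) : Bool :=
  (Nat.blt i a && Nat.blt a j && Nat.blt j b) || (Nat.blt a i && Nat.blt i b && Nat.blt b j)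

def sideB (i j : ℕ) : Bool := Nat.beq (i + 1) j || (Nat.beq i 0 && Nat.beq j 13)

def diagB (i j : ℕ) : Bool := Nat.blt i j && !sideB i j

/-- `true` if `P` holds for all the numbers less than `n`. -/
def allB : ℕ → (ℕ → Bool) → Bool
  | 0, _ => true
  | n + 1, P => P n && allB n P

theorem allB_iff {n : ℕ} {P : ℕ → Bool} : allB n P = true ↔ ∀ i < n, P i = true := by
  induction n with
  | zero => simp [allB]
  | succ n ih =>
    rw [allB, Bool.and_eq_true, ih]
    constructor
    · rintro ⟨h1, h2⟩ i hi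
      rcases Nat.lt_succ_iff_lt_or_eq.1 hi with h | h
      · exact h2 i h
      · rw [h]; exact h1
    · intro h
      exact ⟨h n (Nat.lt_succ_self n), fun i hi => h i (Nat.lt_succ_of_lt hi)⟩

/-- The mask of the diagonals that cross `(i, j)`. -/
def crossMask (i j : ℕ) : ℕ :=
  (List.range 196).foldl (fun s t => if crossB i j (t / 14) (t % 14) then s + 2 ^ t else s) 0

/-- The table of the masks `crossMask (t / 14) (t % 14)`. -/
def table : List ℕ := [0, 0,
  268304384, 4394019717120,
  71921246274060288, 1176051715199179161600,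
  19192868826129926742605824, 311979931643790572351505039360,
  5030344609574851011416470593732608, 79758547822523573197787858910943641600,
  1219646444355944475054385861703774150590464, 17128017723709537953678049678418259157293465600,
  187083628256838046555374110620803172022064227811328, 0,
  0, 0,
  0, 4393751543812,
  71921246006149132, 1176051715198911774748,
  19192868826129926476267580, 311979931643790572351240798332,
  5030344609574851011416470333686012, 79758547822523573197787858910691983868,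
  1219646444355944475054385861703773915710460, 17128017723709537953678049678418259157092141052,
  187083628256838046555374110620803172022064093597692, 8188,
  0, 0,
  0, 0,
  71916856549703688, 1176051710818045526040,
  19192868826125562790412344, 311979931643790568021915730040,
  5030344609574851011412209730191608, 79758547822523573197787854787531637240,
  1219646444355944475054385861699925641659384, 17128017723709537953678049678418255858590681080,
  187083628256838046555374110620803172019865137319928, 134094840,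
  0, 0,
  0, 0,
  0, 1175979934703279144976,
  19192868754630931590676528, 311979931643719636357849284720,
  5030344609574850941606479930327280, 79758547822523573197720300926264934896,
  1219646444355944475054385798649801441281008, 17128017723709537953678049678364213208522950640,
  187083628256838046555374110620803135992163334885360, 2194862252016,
  0, 0,
  0, 0,
  0, 0,
  19191697386522984227274784, 311979930481575181922317369440,
  5030344609573707244459068061384928, 79758547822523572090917767561721938400,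
  1219646444355944475053352785344531550176224, 17128017723709537953678048792929364127935629280,
  187083628256838046555374110620212858055461355130848, 35890250097631200,
  0, 0,
  0, 0,
  0, 0,
  0, 311960889904527796785164320832,
  5030344590835370875349625056788672, 79758547822505438235905209507014246848,
  1219646444355944458128460485889253436294080, 17128017723709537953663541826056114403009365952,
  187083628256838046555374100949096837216842804105152, 585719873844297080768,
  0, 0,
  0, 0,
  0, 0,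
  0, 0,
  5030037581856739216525768135803008, 79758547525400282149984331506579931520,
  1219646444355667160617466040902965975319424, 17128017723709537715981321014562911541495072640,
  187083628256838046555215649308651247580833183174528, 9520871937371538462875520,
  0, 0,
  0, 0,
  0, 0,
  0, 0,
  0, 79753679752047014781272718416050913536,
  1219646439812422264528838339115230659871488, 17128017723705643527999589868880774516606764800,
  187083628256838043959141496292469604745229149146880, 153513934618373138776137408256,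
  0, 0,
  0, 0,
  0, 0,
  0, 0,
  0, 0,
  1219572003206912634006762045016633740624384, 17128017659903186503202053202543915557950850560,
  187083628256795509799086364726623182365547019898368, 2434037714310411779717647061491200,
  0, 0,
  0, 0,
  0, 0,
  0, 0,
  0, 0,
  0, 17126972317788755094201003179913132230655869952,
  187083627559913172918684629590079380048832616205312, 37220655650511000825634334158440373248,
  0, 0,
  0, 0,
  0, 0,
  0, 0,
  0, 0,
  0, 0,
  187072209752590779866635155024025063902212815587328, 522705619009690489309022512158760350259200,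
  0, 0,
  0, 0,
  0, 0,
  0, 0,
  0, 0,
  0, 0,
  0, 5709339241236512651226016559472753052431159296,
  0, 0,
  0, 0,
  0, 0,
  0, 0,
  0, 0,
  0, 0,
  0, 0,
  0, 0,
  0, 0,
  0, 0,
  0, 0,
  0, 0,
  0, 0,
  0, 0]

theorem table_ok : allB 196 (fun s => allB 196 fun t =>
    ((table.getD s 0).testBit t == crossB (s / 14) (s % 14) (t / 14) (t % 14))) = true := by
  decide +kernel

def edgeB (m i j : ℕ) : Bool := Nat.blt i j && (sideB i j || m.testBit (14 * i + j))

def colB (i j k : ℕ) : Bool :=
  !Nat.beq (i % 3) (j % 3) && !Nat.beq (j % 3) (k % 3) && !Nat.beq (i % 3) (k % 3)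

/-- `m` is the mask of a colorful triangulation. -/
def okMask (m : ℕ) : Bool :=
  (allB 196 fun t =>
    m.testBit t == (diagB (t / 14) (t % 14) && Nat.beq (m &&& table.getD t 0) 0)) &&
  (allB 14 fun j => allB j fun i => !edgeB m i j || (allB 14 fun k => !Nat.blt j k ||
    !edgeB m j k || !edgeB m i k || colB i j k))

/-- `x` and `y` differ by the twist in the hexagon `a, b, c, d, e, f`. -/
def stepB (x y a b c d e f : ℕ) : Bool :=
  Nat.blt a b && Nat.blt b c && Nat.blt c d && Nat.blt d e && Nat.blt e f && Nat.blt f 14 &&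
  edgeB x a b && edgeB x b c && edgeB x c d && edgeB x d e && edgeB x e f && edgeB x a f &&
  ((Nat.beq (x &&& (bit a c ||| bit c e ||| bit a e)) (bit a c ||| bit c e ||| bit a e) &&
    (allB 196 fun t => y.testBit t ==
      ((x.testBit t && !(bit a c ||| bit c e ||| bit a e).testBit t) ||
        (bit b d ||| bit d f ||| bit b f).testBit t))) ||
   (Nat.beq (x &&& (bit b d ||| bit d f ||| bit b f)) (bit b d ||| bit d f ||| bit b f) &&
    (allB 196 fun t => y.testBit t ==
      ((x.testBit t && !(bit b d ||| bit d f ||| bit b f).testBit t) ||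
        (bit a c ||| bit c e ||| bit a e).testBit t))))

theorem beq_iff' {a b : ℕ} : Nat.beq a b = true ↔ a = b := by
  simp

theorem blt_iff' {a b : ℕ} : Nat.blt a b = true ↔ a < b := by
  rw [Nat.blt_eq]

theorem sideB_iff {p : Fin 14 × Fin 14} : sideB p.1.val p.2.val = true ↔ IsSide p := by
  rw [sideB, Bool.or_eq_true, Bool.and_eq_true, beq_iff', beq_iff', beq_iff', IsSide]
  omega

theorem diagB_iff {p : Fin 14 × Fin 14} : diagB p.1.val p.2.val = true ↔ IsDiagonal p := by
  rw [diagB, Bool.and_eq_true, blt_iff', Bool.not_eq_true', ← Bool.not_eq_true, sideB_iff,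
    IsDiagonal, Fin.lt_def]

theorem crossB_iff {p q : Fin 14 × Fin 14} :
    crossB p.1.val p.2.val q.1.val q.2.val = true ↔ Cross p q := by
  simp only [crossB, Bool.or_eq_true, Bool.and_eq_true, blt_iff', Cross, Fin.lt_def, and_assoc]

theorem idx {a b : ℕ} (hb : b < 14) : (14 * a + b) / 14 = a ∧ (14 * a + b) % 14 = b := by
  omega

theorem table_bit (p q : Fin 14 × Fin 14) :
    (table.getD (14 * p.1.val + p.2.val) 0).testBit (14 * q.1.val + q.2.val) = true ↔
      Cross p q := by
  have h := allB_iff.1 (allB_iff.1 table_ok (14 * p.1.val + p.2.val) (by omega))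
    (14 * q.1.val + q.2.val) (by omega)
  rw [beq_iff_eq, (idx p.2.isLt).1, (idx p.2.isLt).2, (idx q.2.isLt).1, (idx q.2.isLt).2] at h
  rw [h, crossB_iff]

theorem edgeB_iff {m : ℕ} {i j : Fin 14} : edgeB m i.val j.val = true ↔ IsEdge (ofMask m) i j := by
  have h := sideB_iff (p := (i, j))
  simp only at h
  rw [edgeB, Bool.and_eq_true, Bool.or_eq_true, blt_iff', h, IsEdge, Fin.lt_def, mem_ofMask]

theorem land_eq_zero {x y : ℕ} : x &&& y = 0 ↔ ∀ t, x.testBit t = true → y.testBit t = true →
    False := by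
  constructor
  · intro h t h1 h2
    have : (x &&& y).testBit t = true := by rw [Nat.testBit_and, h1, h2]; rfl
    rw [h, Nat.zero_testBit] at this
    exact Bool.false_ne_true this
  · intro h
    apply Nat.eq_of_testBit_eq
    intro t
    rw [Nat.testBit_and, Nat.zero_testBit]
    by_contra hc
    rw [Bool.not_eq_false, Bool.and_eq_true] at hc
    exact h t hc.1 hc.2

theorem ok_sound {m : ℕ} (h : okMask m = true) (hlt : m < 2 ^ 196) :
    IsTriangulation (ofMask m) ∧ Colorful (ofMask m) := by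
  rw [okMask, Bool.and_eq_true] at h
  obtain ⟨h1, h2⟩ := h
  have key : ∀ p : Fin 14 × Fin 14, p ∈ ofMask m ↔ IsDiagonal p ∧
      ∀ q ∈ ofMask m, ¬ Cross p q := by
    rintro ⟨i, j⟩
    have h3 := allB_iff.1 h1 (14 * i.val + j.val) (by omega)
    rw [beq_iff_eq, (idx j.isLt).1, (idx j.isLt).2] at h3
    rw [mem_ofMask, h3, Bool.and_eq_true, beq_iff', land_eq_zero]
    have h4 := diagB_iff (p := (i, j))
    simp only at h4
    rw [h4]
    refine and_congr_right fun _ => ⟨fun h5 q hq hc => ?_, fun h5 t ht1 ht2 => ?_⟩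
    · exact h5 (14 * q.1.val + q.2.val) (mem_ofMask.1 hq) ((table_bit (i, j) q).2 hc)
    · have ht : t < 196 := by
        by_contra hge
        have := Nat.testBit_lt_two_pow (lt_of_lt_of_le hlt (Nat.pow_le_pow_right (n := 2)
          (by norm_num) (not_lt.1 hge)))
        rw [this] at ht1
        exact Bool.false_ne_true ht1
      have ht' : t = 14 * (t / 14) + t % 14 := (Nat.div_add_mod t 14).symm
      rw [ht'] at ht1 ht2
      refine h5 (⟨t / 14, by omega⟩, ⟨t % 14, by omega⟩) (mem_ofMask.2 ht1) ?_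
      exact (table_bit (i, j) (⟨t / 14, by omega⟩, ⟨t % 14, by omega⟩)).1 ht2
  refine ⟨⟨fun p hp => ((key p).1 hp).1, fun p hp => ((key p).1 hp).2,
    fun p h3 h4 => (key p).2 ⟨h3, h4⟩⟩, ?_⟩
  rintro i j k ⟨e1, e2, e3⟩
  have h3 := allB_iff.1 (allB_iff.1 h2 j.val j.isLt) i.val (Fin.lt_def.1 e1.1)
  rw [edgeB_iff.2 e1, Bool.not_true, Bool.false_or] at h3
  have h4 := allB_iff.1 h3 k.val k.isLt
  rw [edgeB_iff.2 e2, edgeB_iff.2 e3, blt_iff'.2 (Fin.lt_def.1 e2.1), Bool.not_true, Bool.false_or,
    Bool.false_or, Bool.false_or, colB, Bool.and_eq_true, Bool.and_eq_true, Bool.not_eq_true',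
    Bool.not_eq_true', Bool.not_eq_true', ← Bool.not_eq_true, ← Bool.not_eq_true,
    ← Bool.not_eq_true, beq_iff', beq_iff', beq_iff'] at h4
  exact ⟨h4.1.1, h4.1.2, h4.2⟩

theorem land_eq_self {x y : ℕ} (h : x &&& y = y) (t : ℕ) (ht : y.testBit t = true) :
    x.testBit t = true := by
  rw [← h, Nat.testBit_and, Bool.and_eq_true] at ht
  exact ht.1

theorem bits3 {a b c d e f : Fin 14} {p : Fin 14 × Fin 14} :
    (bit a.val b.val ||| bit c.val d.val ||| bit e.val f.val).testBit
      (14 * p.1.val + p.2.val) = true ↔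
      p ∈ ({(a, b), (c, d), (e, f)} : Finset (Fin 14 × Fin 14)) := by
  rw [Nat.testBit_or, Nat.testBit_or, Bool.or_eq_true, Bool.or_eq_true,
    testBit_bit b.isLt p.2.isLt, testBit_bit d.isLt p.2.isLt, testBit_bit f.isLt p.2.isLt,
    Finset.mem_insert, Finset.mem_insert, Finset.mem_singleton, decide_eq_true_iff,
    decide_eq_true_iff, decide_eq_true_iff, Prod.ext_iff, Prod.ext_iff, Prod.ext_iff,
    Fin.ext_iff, Fin.ext_iff, Fin.ext_iff, Fin.ext_iff, Fin.ext_iff, Fin.ext_iff]
  simp only [eq_comm, or_assoc]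

theorem half {x y : ℕ} {A B : ℕ} {SA SB : Finset (Fin 14 × Fin 14)}
    (hA : ∀ p : Fin 14 × Fin 14, A.testBit (14 * p.1.val + p.2.val) = true ↔ p ∈ SA)
    (hB : ∀ p : Fin 14 × Fin 14, B.testBit (14 * p.1.val + p.2.val) = true ↔ p ∈ SB)
    (h : (Nat.beq (x &&& A) A && (allB 196 fun t => y.testBit t ==
      ((x.testBit t && !A.testBit t) || B.testBit t))) = true) :
    SA ⊆ ofMask x ∧ ofMask y = (ofMask x \ SA) ∪ SB := by
  rw [Bool.and_eq_true, beq_iff'] at h
  obtain ⟨h1, h2⟩ := h
  constructor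
  · intro p hp
    exact mem_ofMask.2 (land_eq_self h1 _ ((hA p).2 hp))
  · ext p
    have h3 := allB_iff.1 h2 (14 * p.1.val + p.2.val) (by omega)
    rw [beq_iff_eq] at h3
    rw [Finset.mem_union, Finset.mem_sdiff, ← hA, ← hB]
    change (p.1, p.2) ∈ ofMask y ↔ ((p.1, p.2) ∈ ofMask x ∧ _) ∨ _
    rw [mem_ofMask, mem_ofMask, h3, Bool.or_eq_true, Bool.and_eq_true, Bool.not_eq_true',
      ← Bool.not_eq_true]

theorem step_sound {x y a b c d e f : ℕ} (h : stepB x y a b c d e f = true) :
    IsTwist (ofMask x) (ofMask y) := by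
  unfold stepB at h
  rw [Bool.and_eq_true] at h
  obtain ⟨h, h0⟩ := h
  simp only [Bool.and_eq_true] at h
  obtain ⟨⟨⟨⟨⟨⟨⟨⟨⟨⟨⟨hab, hbc⟩, hcd⟩, hde⟩, hef⟩, hf⟩, e1⟩, e2⟩, e3⟩, e4⟩, e5⟩, e6⟩ := h
  rw [blt_iff'] at hab hbc hcd hde hef hf
  let h : Fin 6 → Fin 14 := ![⟨a, by omega⟩, ⟨b, by omega⟩, ⟨c, by omega⟩, ⟨d, by omega⟩,
    ⟨e, by omega⟩, ⟨f, hf⟩]
  refine ⟨h, ?_, ⟨(edgeB_iff (i := h 0) (j := h 1)).1 e1,
    (edgeB_iff (i := h 1) (j := h 2)).1 e2, (edgeB_iff (i := h 2) (j := h 3)).1 e3,
    (edgeB_iff (i := h 3) (j := h 4)).1 e4, (edgeB_iff (i := h 4) (j := h 5)).1 e5,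
    (edgeB_iff (i := h 0) (j := h 5)).1 e6⟩, ?_⟩
  · rw [Fin.strictMono_iff_lt_succ]
    intro i
    fin_cases i
    · exact hab
    · exact hbc
    · exact hcd
    · exact hde
    · exact hef
  · rw [Bool.or_eq_true] at h0
    have hA : ∀ p : Fin 14 × Fin 14, (bit a c ||| bit c e ||| bit a e).testBit
        (14 * p.1.val + p.2.val) = true ↔ p ∈ ({(h 0, h 2), (h 2, h 4), (h 0, h 4)} :
          Finset (Fin 14 × Fin 14)) := fun p =>
      bits3 (a := h 0) (b := h 2) (c := h 2) (d := h 4) (e := h 0) (f := h 4)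
    have hB : ∀ p : Fin 14 × Fin 14, (bit b d ||| bit d f ||| bit b f).testBit
        (14 * p.1.val + p.2.val) = true ↔ p ∈ ({(h 1, h 3), (h 3, h 5), (h 1, h 5)} :
          Finset (Fin 14 × Fin 14)) := fun p =>
      bits3 (a := h 1) (b := h 3) (c := h 3) (d := h 5) (e := h 1) (f := h 5)
    rcases h0 with h0 | h0
    · exact Or.inl (half hA hB h0)
    · exact Or.inr (half hB hA h0)

/-! ### Connectivity -/

/-- One of the triangulations. -/
def root : ℕ := 187072210449520968143702660118448406652268570476548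

/-- The other triangulations, each obtained by a twist from an earlier one: the number of the
earlier one and the hexagon. -/
def steps : List (ℕ × ℕ × ℕ × ℕ × ℕ × ℕ × ℕ) :=
  [(0, 2, 3, 4, 5, 6, 13), (0, 5, 6, 7, 8, 9, 13), (0, 8, 9, 10, 11, 12, 13), (1, 0, 2, 4, 6, 8,
  13), (1, 2, 6, 7, 8, 9, 13), (1, 8, 9, 10, 11, 12, 13), (2, 2, 3, 4, 5, 9, 13), (2, 3, 5, 7, 9,
  11, 13), (2, 5, 9, 10, 11, 12, 13), (3, 5, 6, 7, 8, 12, 13), (4, 0, 1, 2, 3, 4, 8), (4, 0, 4, 5,
  6, 7, 8), (4, 8, 9, 10, 11, 12, 13), (5, 0, 2, 7, 9, 11, 13), (5, 2, 3, 4, 5, 6, 7), (5, 2, 9,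
  10, 11, 12, 13), (6, 2, 6, 7, 8, 12, 13), (7, 0, 2, 4, 9, 11, 13), (7, 2, 9, 10, 11, 12, 13),
  (7, 4, 5, 6, 7, 8, 9), (8, 2, 3, 7, 11, 12, 13), (8, 3, 4, 5, 6, 7, 11), (8, 3, 7, 8, 9, 10,
  11), (9, 2, 3, 4, 5, 12, 13), (9, 5, 6, 7, 8, 9, 10), (10, 2, 3, 4, 5, 12, 13), (10, 7, 8, 9,
  10, 11, 12), (11, 3, 4, 5, 6, 7, 8), (11, 8, 9, 10, 11, 12, 13), (12, 0, 1, 2, 3, 4, 5), (12, 8,
  9, 10, 11, 12, 13), (14, 0, 1, 2, 6, 7, 11), (14, 0, 7, 8, 9, 10, 11), (14, 2, 3, 4, 5, 6, 7),
  (15, 2, 3, 7, 8, 9, 13), (15, 2, 9, 10, 11, 12, 13), (16, 2, 6, 7, 8, 9, 10), (17, 2, 3, 4, 5,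
  6, 7), (17, 7, 8, 9, 10, 11, 12), (18, 0, 1, 2, 3, 4, 11), (18, 0, 4, 5, 9, 10, 11), (18, 4, 5,
  6, 7, 8, 9), (19, 2, 3, 4, 5, 9, 10), (19, 4, 5, 6, 7, 8, 9), (20, 2, 3, 4, 8, 9, 13), (22, 2,
  3, 4, 11, 12, 13), (22, 6, 7, 8, 9, 10, 11), (23, 2, 3, 10, 11, 12, 13), (23, 3, 4, 5, 6, 7, 8),
  (24, 4, 5, 9, 10, 11, 12), (24, 5, 6, 7, 8, 9, 10), (25, 5, 6, 10, 11, 12, 13), (26, 4, 5, 6, 7,
  8, 12), (26, 7, 8, 9, 10, 11, 12), (27, 5, 6, 7, 11, 12, 13), (28, 0, 1, 2, 3, 7, 8), (28, 8, 9,
  10, 11, 12, 13), (30, 0, 1, 5, 6, 7, 8), (30, 8, 9, 10, 11, 12, 13), (32, 1, 2, 3, 4, 5, 6),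
  (32, 6, 7, 8, 9, 10, 11), (33, 0, 1, 2, 6, 7, 8), (33, 2, 3, 4, 5, 6, 7), (34, 0, 1, 2, 3, 7,
  11), (35, 8, 9, 10, 11, 12, 13), (37, 2, 3, 4, 5, 6, 10), (37, 2, 6, 10, 11, 12, 13), (39, 2, 6,
  7, 11, 12, 13), (40, 3, 4, 5, 9, 10, 11), (40, 4, 5, 6, 7, 8, 9), (41, 0, 1, 2, 3, 4, 5), (41,
  5, 6, 7, 8, 9, 10), (42, 0, 4, 8, 9, 10, 11), (43, 2, 3, 10, 11, 12, 13), (44, 2, 3, 4, 8, 9,
  10), (45, 8, 9, 10, 11, 12, 13), (46, 6, 7, 8, 9, 10, 11), (47, 3, 4, 5, 6, 10, 11), (49, 3, 4,
  8, 9, 10, 11), (50, 2, 3, 4, 11, 12, 13), (50, 4, 5, 6, 7, 8, 9), (56, 2, 3, 4, 5, 6, 7), (56,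
  8, 9, 10, 11, 12, 13), (58, 1, 2, 3, 4, 5, 6), (58, 8, 9, 10, 11, 12, 13), (60, 0, 1, 5, 6, 7,
  11), (60, 6, 7, 8, 9, 10, 11), (61, 0, 1, 2, 6, 10, 11), (62, 0, 1, 8, 9, 10, 11), (62, 1, 2, 3,
  4, 5, 6), (63, 0, 1, 2, 3, 7, 8), (64, 1, 3, 5, 7, 9, 11), (64, 3, 4, 5, 6, 7, 11), (64, 3, 7,
  8, 9, 10, 11), (67, 0, 2, 4, 6, 11, 13), (68, 0, 2, 4, 6, 11, 13), (69, 0, 1, 2, 3, 10, 11),
  (69, 5, 6, 7, 8, 9, 10), (70, 3, 4, 8, 9, 10, 11), (71, 5, 6, 7, 8, 9, 10), (73, 0, 1, 2, 3, 4,
  8), (73, 0, 4, 5, 6, 7, 8), (82, 8, 9, 10, 11, 12, 13), (84, 8, 9, 10, 11, 12, 13), (86, 0, 1,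
  2, 3, 4, 5), (86, 0, 5, 7, 9, 11, 13), (86, 0, 7, 8, 9, 10, 11), (88, 2, 3, 4, 5, 6, 10), (88,
  2, 6, 7, 8, 9, 10), (89, 1, 2, 3, 4, 5, 6), (89, 1, 2, 6, 7, 8, 9), (91, 0, 1, 8, 9, 10, 11),
  (92, 1, 2, 3, 4, 5, 9), (93, 6, 7, 8, 9, 10, 11), (94, 0, 1, 2, 3, 10, 11), (97, 2, 3, 4, 5, 9,
  10), (99, 0, 1, 2, 3, 10, 11), (101, 0, 1, 8, 9, 10, 11), (105, 0, 5, 7, 9, 11, 13), (106, 5, 6,
  7, 8, 9, 13), (106, 5, 9, 10, 11, 12, 13), (109, 2, 3, 4, 5, 6, 7), (111, 2, 3, 4, 5, 6, 7),
  (113, 4, 5, 6, 7, 8, 9), (116, 4, 5, 6, 7, 8, 9), (119, 5, 6, 7, 8, 9, 13), (119, 5, 9, 10, 11,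
  12, 13), (120, 8, 9, 10, 11, 12, 13), (121, 5, 6, 7, 8, 9, 10), (126, 8, 9, 10, 11, 12, 13),
  (127, 5, 6, 7, 8, 9, 10), (128, 5, 6, 7, 8, 12, 13), (129, 5, 6, 10, 11, 12, 13), (130, 5, 6, 7,
  8, 12, 13), (131, 5, 6, 10, 11, 12, 13), (132, 7, 8, 9, 10, 11, 12), (133, 6, 7, 8, 9, 10, 11),
  (134, 7, 8, 9, 10, 11, 12), (135, 6, 7, 8, 9, 10, 11)]

/-- The mask obtained from `x` by the twist in the hexagon. -/
def tw (x a b c d e f : ℕ) : ℕ :=
  let A := bit a c ||| bit c e ||| bit a e
  let B := bit b d ||| bit d f ||| bit b f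
  if x &&& A = A then (x - A) + B else (x - B) + A

/-- All the masks obtained by the twists in the list. -/
def go : List ℕ → List (ℕ × ℕ × ℕ × ℕ × ℕ × ℕ × ℕ) → List ℕ
  | seen, [] => seen
  | seen, (p, a, b, c, d, e, f) :: rest =>
    let x := seen.getD p 0
    let y := tw x a b c d e f
    if Nat.blt p seen.length && Nat.blt y (2 ^ 196) && okMask y && stepB x y a b c d e f then
      go (seen ++ [y]) rest
    else seen

/-- The vertex of `H_14` with the mask `m` is reachable from the one with the mask `root`. -/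
def Good (m : ℕ) : Prop :=
  ∃ (h : IsTriangulation (ofMask m) ∧ Colorful (ofMask m))
    (h0 : IsTriangulation (ofMask root) ∧ Colorful (ofMask root)),
    (twistGraph 14).Reachable ⟨ofMask root, h0⟩ ⟨ofMask m, h⟩

theorem go_good : ∀ (l : List (ℕ × ℕ × ℕ × ℕ × ℕ × ℕ × ℕ)) (seen : List ℕ), (∀ x ∈ seen, Good x) →
    ∀ y ∈ go seen l, Good y
  | [], seen, h, y, hy => h y (by rwa [go] at hy)
  | (p, a, b, c, d, e, f) :: rest, seen, h, y, hy => by
    rw [go] at hy
    split_ifs at hy with hc
    · refine go_good rest _ ?_ y hy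
      intro z hz
      rw [List.mem_append, List.mem_singleton] at hz
      rcases hz with hz | hz
      · exact h z hz
      · rw [Bool.and_eq_true, Bool.and_eq_true, Bool.and_eq_true, blt_iff', blt_iff'] at hc
        obtain ⟨⟨⟨h1, h2⟩, h3⟩, h4⟩ := hc
        have hx : seen.getD p 0 ∈ seen := by
          rw [List.getD_eq_getElem _ _ h1]
          exact List.getElem_mem h1
        obtain ⟨g1, g0, g2⟩ := h _ hx
        rw [← hz] at h2 h3 h4
        have h5 := ok_sound h3 h2
        refine ⟨h5, g0, ?_⟩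
        by_cases heq : ofMask z = ofMask (seen.getD p 0)
        · have : (⟨ofMask z, h5⟩ : {T : Finset (Fin 14 × Fin 14) // IsTriangulation T ∧
              Colorful T}) = ⟨ofMask (seen.getD p 0), g1⟩ := Subtype.ext heq
          rw [this]
          exact g2
        · refine g2.trans (SimpleGraph.Adj.reachable ?_)
          rw [twistGraph, SimpleGraph.fromRel_adj]
          refine ⟨fun hne => heq (congrArg Subtype.val hne).symm, Or.inl ?_⟩
          exact step_sound h4
    · exact h y hy

theorem root_ok : okMask root = true := by decide +kernel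

theorem root_lt : root < 2 ^ 196 := by decide +kernel

theorem all_reached : (E 14 0 13).all (fun m => (go [root] steps).contains m) = true := by
  decide +kernel

theorem all_good {m : ℕ} (hm : m ∈ E 14 0 13) : Good m := by
  have h1 := List.all_eq_true.1 all_reached m hm
  rw [List.contains_iff_mem] at h1
  refine go_good steps [root] ?_ m h1
  intro x hx
  rw [List.mem_singleton] at hx
  subst hx
  exact ⟨ok_sound root_ok root_lt, ok_sound root_ok root_lt, SimpleGraph.Reachable.refl _⟩

theorem eq_ofMask {T : Finset (Fin 14 × Fin 14)} (hT : IsTriangulation T) (hc : Colorful T) :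
    ∃ m ∈ E 14 0 13, T = ofMask m := by
  obtain ⟨m, hm, h⟩ := enum hT hc 14 0 13 (by norm_num) (by norm_num) (by norm_num)
    ⟨by rw [Fin.lt_def]; norm_num, Or.inl (Or.inr ⟨rfl, rfl⟩)⟩
  refine ⟨m, hm, ?_⟩
  ext ⟨a, b⟩
  rw [mem_ofMask, h a b]
  constructor
  · intro hab
    refine ⟨Nat.zero_le _, by omega, ?_, hab⟩
    rintro ⟨h1, h2⟩
    exact (hT.diagonal _ hab).2 (Or.inr ⟨h1, by simp only; omega⟩)
  · rintro ⟨-, -, -, hab⟩
    exact hab

theorem connected : (twistGraph 14).Connected := by
  have hr : IsTriangulation (ofMask root) ∧ Colorful (ofMask root) := ok_sound root_ok root_lt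
  have key : ∀ v, (twistGraph 14).Reachable ⟨ofMask root, hr⟩ v := by
    rintro ⟨T, hT, hc⟩
    obtain ⟨m, hm, rfl⟩ := eq_ofMask hT hc
    obtain ⟨_, _, h⟩ := all_good hm
    exact h
  have : Nonempty {T : Finset (Fin 14 × Fin 14) // IsTriangulation T ∧ Colorful T} :=
    ⟨⟨ofMask root, hr⟩⟩
  exact SimpleGraph.Connected.mk fun u v => (key u).symm.trans (key v)

end Pool.Agent.E8helper91.Twist
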